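import Pool.Agent.Lib.helper8.Dist5

set_option autoImplicit false

namespace Pool.Agent.Results.MP_46bc6f_an.ZeroEnt

theorem result :
    ∃ (k : ℕ) (X : Set (ℤ → Fin k)), X.Nonempty ∧ IsClosed X ∧
      (∀ x : ℤ → Fin k, x ∈ X ↔ (fun i => x (i + 1)) ∈ X) ∧
      Filter.Tendsto (fun n : ℕ => Real.log
        (Set.ncard {w : Fin n → Fin k | ∃ x ∈ X, ∀ i : Fin n, x ((i : ℕ) : ℤ) = w i}) / n)
        Filter.atTop (nhds 0) ∧
      ∃ (S : Finset (X ≃ₜ X)) (g : X ≃ₜ X), g ∈ S ∧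
        (∀ h ∈ S, ∀ x y : X, ((y : ℤ → Fin k) = fun i => (x : ℤ → Fin k) (i + 1)) →
          ((h y : X) : ℤ → Fin k) = fun i => ((h x : X) : ℤ → Fin k) (i + 1)) ∧
        ¬ IsOfFinOrder g ∧
        ∀ ε : ℝ, 0 < ε → ∃ N : ℕ, ∀ n : ℕ, N ≤ n →
          ∃ l : List (X ≃ₜ X), (l.length : ℝ) ≤ ε * n ∧
            (∀ h ∈ l, h ∈ S ∨ h⁻¹ ∈ S) ∧ l.prod = g ^ n := by
  open Pool.Agent.Lib.helper8.Dist in
  classical
  obtain ⟨k, ⟨c⟩⟩ := core_fin
  have hR : ∀ g (x : c.Xz), (c.hom g x).1 = c.ext g x.1 := fun _ _ => rfl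
  refine ⟨k, c.Xz, ?_, c.Xz_closed, c.Xz_shift, c.entropy,
    Finset.univ.image fun s => c.hom (FreeGroup.of s),
    c.hom (FreeGroup.of 1), Finset.mem_image_of_mem _ (Finset.mem_univ _), ?_, ?_, ?_⟩
  · obtain ⟨x, hx, -⟩ := c.ext_inf 1 one_pos
    exact ⟨x, hx⟩
  · intro h hh x y hxy
    obtain ⟨s, -, rfl⟩ := Finset.mem_image.1 hh
    rw [hR, hR, hxy]
    exact c.ext_shift _ _
  · rw [isOfFinOrder_iff_pow_eq_one]
    rintro ⟨p, hp, h⟩
    obtain ⟨x, hx, h1⟩ := c.ext_inf p hp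
    apply h1
    rw [← map_pow] at h
    rw [← hR _ ⟨x, hx⟩, h]
    rfl
  · intro ε hε
    obtain ⟨N, hN⟩ := c.dist ε hε
    refine ⟨N, fun n hn => ?_⟩
    obtain ⟨l, h1, h2⟩ := hN n hn
    refine ⟨l.map fun σ => c.hom (FreeGroup.mk [σ]), by simpa using h1, ?_, ?_⟩
    · intro h hh
      obtain ⟨⟨s, _ | _⟩, -, rfl⟩ := List.mem_map.1 hh
      · right
        rw [← map_inv]
        exact Finset.mem_image_of_mem _ (Finset.mem_univ s)
      · left
        exact Finset.mem_image_of_mem _ (Finset.mem_univ s)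
    · have h3 : (l.map fun σ => c.hom (FreeGroup.mk [σ])).prod = c.hom (FreeGroup.mk l) := by
        clear h1 h2
        induction l with
        | nil => simp [← FreeGroup.one_eq_mk]
        | cons σ l ih => rw [List.map_cons, List.prod_cons, ih, ← map_mul]; rfl
      rw [h3, ← map_pow]
      refine Homeomorph.ext fun x => Subtype.ext ?_
      rw [hR, hR]
      funext j
      exact congrFun (h2 _ (x.2 j)) 0

end Pool.Agent.Results.MP_46bc6f_an.ZeroEnt
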